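import Mathlib

set_option autoImplicit false

namespace Pool.Agent.Results.MP_812af1_co.BalanceVaries

open Matrix

/-- `H` is a Butson matrix `BH(m, n)`: its entries are `m`-th roots of unity and
`H * Hᴴ = n • 1`. -/
def IsButson (m : ℕ) {n : ℕ} (H : Matrix (Fin n) (Fin n) ℂ) : Prop :=
  (∀ i j, H i j ^ m = 1) ∧ H * Hᴴ = (n : ℂ) • (1 : Matrix (Fin n) (Fin n) ℂ)

/-- Equivalence: `H'` arises from `H` by permuting rows and columns and multiplying rows and
columns by `m`-th roots of unity. -/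
def Equivalent (m : ℕ) {n : ℕ} (H H' : Matrix (Fin n) (Fin n) ℂ) : Prop :=
  ∃ (σ τ : Equiv.Perm (Fin n)) (a b : Fin n → ℂ), (∀ i, a i ^ m = 1) ∧ (∀ j, b j ^ m = 1) ∧
    ∀ i j, H' i j = a i * b j * H (σ i) (τ j)

/-- Normalised: the first row and the first column consist of ones. -/
def Normalised {n : ℕ} [NeZero n] (H : Matrix (Fin n) (Fin n) ℂ) : Prop :=
  (∀ j, H 0 j = 1) ∧ (∀ i, H i 0 = 1)

/-- Every `m`-th root of unity occurs the same number of times in every row other than the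
first. -/
def RowBalanced (m : ℕ) {n : ℕ} [NeZero n] (H : Matrix (Fin n) (Fin n) ℂ) : Prop :=
  ∀ i, i ≠ 0 → ∀ z w : ℂ, z ^ m = 1 → w ^ m = 1 →
    {j | H i j = z}.ncard = {j | H i j = w}.ncard

/-- Every `m`-th root of unity occurs the same number of times in every column other than the
first. -/
def ColumnBalanced (m : ℕ) {n : ℕ} [NeZero n] (H : Matrix (Fin n) (Fin n) ℂ) : Prop :=
  ∀ j, j ≠ 0 → ∀ z w : ℂ, z ^ m = 1 → w ^ m = 1 →
    {i | H i j = z}.ncard = {i | H i j = w}.ncard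

/-- The exponents of the example. -/
def E : Fin 16 → Fin 16 → ZMod 4 :=
  ![![0, 0, 0, 0, 0, 0, 0, 0, 0, 0, 0, 0, 0, 0, 0, 0],
    ![0, 0, 0, 0, 1, 1, 1, 1, 2, 2, 2, 2, 3, 3, 3, 3],
    ![0, 0, 3, 0, 2, 3, 1, 2, 0, 3, 3, 1, 1, 2, 1, 2],
    ![0, 0, 0, 3, 3, 2, 3, 2, 1, 2, 1, 3, 2, 1, 1, 0],
    ![0, 3, 2, 1, 0, 0, 2, 2, 0, 1, 2, 3, 3, 3, 1, 1],
    ![0, 3, 1, 0, 2, 1, 3, 3, 3, 0, 1, 2, 0, 1, 2, 2],
    ![0, 3, 0, 1, 2, 3, 2, 0, 2, 1, 3, 0, 2, 1, 3, 1],
    ![0, 3, 1, 2, 0, 2, 1, 3, 3, 2, 0, 1, 1, 3, 2, 0],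
    ![0, 2, 1, 2, 1, 0, 0, 1, 0, 3, 3, 3, 2, 1, 2, 3],
    ![0, 2, 1, 3, 3, 1, 2, 0, 1, 3, 2, 0, 1, 3, 0, 2],
    ![0, 2, 3, 1, 0, 2, 3, 1, 1, 3, 0, 2, 0, 2, 3, 1],
    ![0, 2, 2, 1, 2, 3, 0, 3, 1, 2, 1, 1, 3, 0, 0, 3],
    ![0, 1, 2, 3, 1, 0, 3, 3, 2, 1, 3, 2, 1, 2, 0, 0],
    ![0, 1, 2, 3, 3, 3, 1, 1, 2, 1, 0, 3, 0, 0, 2, 2],
    ![0, 1, 3, 2, 1, 2, 2, 0, 3, 0, 1, 0, 3, 2, 1, 3],
    ![0, 1, 3, 2, 3, 1, 0, 2, 3, 0, 2, 1, 2, 0, 3, 1]]

/-- Real part of `I ^ t`. -/
def re4 (t : ZMod 4) : ℤ := ![1, 0, -1, 0] t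

/-- Imaginary part of `I ^ t`. -/
def im4 (t : ZMod 4) : ℤ := ![0, 1, 0, -1] t

/-- `I ^ t`. -/
noncomputable def g (t : ZMod 4) : ℂ := (re4 t : ℂ) + (im4 t : ℂ) * Complex.I

theorem g_zero : g 0 = 1 := by simp [g, re4, im4]

theorem g_add (s t : ZMod 4) : g (s + t) = g s * g t := by
  have h1 : ∀ s t : ZMod 4, re4 (s + t) = re4 s * re4 t - im4 s * im4 t := by decide
  have h2 : ∀ s t : ZMod 4, im4 (s + t) = re4 s * im4 t + im4 s * re4 t := by decide
  unfold g
  rw [h1, h2]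
  push_cast
  have hI : Complex.I * Complex.I = -1 := Complex.I_mul_I
  linear_combination (-(im4 s : ℂ) * (im4 t : ℂ)) * hI

theorem g_conj (t : ZMod 4) : star (g t) = g (-t) := by
  have h1 : ∀ t : ZMod 4, re4 (-t) = re4 t := by decide
  have h2 : ∀ t : ZMod 4, im4 (-t) = - im4 t := by decide
  unfold g
  rw [h1, h2]
  simp

theorem g_inj {s t : ZMod 4} (h : g s = g t) : s = t := by
  have hre := congrArg Complex.re h
  have him := congrArg Complex.im h
  simp only [g, Complex.add_re, Complex.mul_re, Complex.intCast_re, Complex.intCast_im,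
    Complex.I_re, Complex.I_im, Complex.add_im, Complex.mul_im] at hre him
  have h1 : re4 s = re4 t := by
    have : (re4 s : ℝ) = re4 t := by linarith
    exact_mod_cast this
  have h2 : im4 s = im4 t := by
    have : (im4 s : ℝ) = im4 t := by linarith
    exact_mod_cast this
  revert s t
  have : ∀ s t : ZMod 4, re4 s = re4 t → im4 s = im4 t → s = t := by decide
  intro s t _ _ _ h1 h2
  exact this s t h1 h2

theorem g_pow (t : ZMod 4) : g t ^ 4 = 1 := by
  have h : g t ^ 4 = g (t + t + (t + t)) := by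
    rw [g_add, g_add]
    ring
  rw [h]
  have h2 : ∀ t : ZMod 4, t + t + (t + t) = 0 := by decide
  rw [h2, g_zero]

theorem exists_g {z : ℂ} (hz : z ^ 4 = 1) : ∃ t, z = g t := by
  have h1 : (z ^ 2 - 1) * (z ^ 2 + 1) = 0 := by linear_combination hz
  rcases mul_eq_zero.1 h1 with h | h
  · have h2 : (z - 1) * (z + 1) = 0 := by linear_combination h
    rcases mul_eq_zero.1 h2 with h | h
    · exact ⟨0, by rw [g_zero]; exact sub_eq_zero.1 h⟩
    · refine ⟨2, ?_⟩
      have e : g 2 = -1 := by simp [g, re4, im4]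
      rw [e]
      exact eq_neg_of_add_eq_zero_left h
  · have h2 : (z - Complex.I) * (z + Complex.I) = 0 := by
      linear_combination h - Complex.I_mul_I
    rcases mul_eq_zero.1 h2 with h | h
    · refine ⟨1, ?_⟩
      have e : g 1 = Complex.I := by simp [g, re4, im4]
      rw [e]
      exact sub_eq_zero.1 h
    · refine ⟨3, ?_⟩
      have e : g 3 = -Complex.I := by simp [g, re4, im4]
      rw [e]
      exact eq_neg_of_add_eq_zero_left h

/-- The matrix with exponent table `A`. -/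
noncomputable def mat (A : Fin 16 → Fin 16 → ZMod 4) : Matrix (Fin 16) (Fin 16) ℂ :=
  fun i j => g (A i j)

theorem sum_g {ι : Type*} (s : Finset ι) (f : ι → ZMod 4) :
    ∑ x ∈ s, g (f x) = ((∑ x ∈ s, re4 (f x) : ℤ) : ℂ) + ((∑ x ∈ s, im4 (f x) : ℤ) : ℂ) *
      Complex.I := by
  unfold g
  rw [Finset.sum_add_distrib, ← Finset.sum_mul]
  push_cast
  rfl

theorem ncard_g (f : Fin 16 → ZMod 4) (t : ZMod 4) :
    {j | g (f j) = g t}.ncard = (Finset.univ.filter (fun j => f j = t)).card := by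
  rw [← Set.ncard_coe_finset]
  congr 1
  ext j
  simp only [Set.mem_ofPred_eq, Finset.coe_filter, Finset.mem_univ, true_and]
  exact ⟨fun h => g_inj h, fun h => by rw [h]⟩

/-- The exponents of the second example, an equivalent normalised matrix. -/
def E' (i j : Fin 16) : ZMod 4 :=
  E (Equiv.swap 0 4 i) (Equiv.swap 0 2 j) - E 4 (Equiv.swap 0 2 j) - E (Equiv.swap 0 4 i) 2 + E 4 2

theorem dec_re : ∀ i k : Fin 16, ∑ j, re4 (E i j - E k j) = if i = k then 16 else 0 := by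
  decide +kernel

theorem dec_im : ∀ i k : Fin 16, ∑ j, im4 (E i j - E k j) = 0 := by
  decide +kernel

theorem dec_row : ∀ i : Fin 16, i ≠ 0 → ∀ t : ZMod 4,
    (Finset.univ.filter (fun j => E i j = t)).card = 4 := by
  decide +kernel

theorem dec_col : ∀ j : Fin 16, j ≠ 0 → ∀ t : ZMod 4,
    (Finset.univ.filter (fun i => E i j = t)).card = 4 := by
  decide +kernel

theorem dec_norm : (∀ j, E 0 j = 0) ∧ (∀ i, E i 0 = 0) ∧ (∀ j, E' 0 j = 0) ∧ (∀ i, E' i 0 = 0) := by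
  decide +kernel

theorem dec_row' : (Finset.univ.filter (fun j => E' 5 j = 0)).card ≠
    (Finset.univ.filter (fun j => E' 5 j = 1)).card := by
  decide +kernel

theorem dec_col' : (Finset.univ.filter (fun i => E' i 3 = 0)).card ≠
    (Finset.univ.filter (fun i => E' i 3 = 1)).card := by
  decide +kernel

/-- There is a Butson matrix `BH(4, 16)` whose equivalence class contains a normalised matrix that
is row balanced and column balanced, and a normalised matrix that is neither. -/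
theorem result : ∃ H H' : Matrix (Fin 16) (Fin 16) ℂ, IsButson 4 H ∧ Equivalent 4 H H' ∧
    Normalised H ∧ Normalised H' ∧ RowBalanced 4 H ∧ ColumnBalanced 4 H ∧
    ¬ RowBalanced 4 H' ∧ ¬ ColumnBalanced 4 H' := by
  refine ⟨mat E, mat E', ⟨fun i j => g_pow _, ?_⟩, ?_, ?_, ?_, ?_, ?_, ?_, ?_⟩
  · ext i k
    rw [Matrix.mul_apply]
    have h1 : ∀ j, mat E i j * (mat E)ᴴ j k = g (E i j - E k j) := by
      intro j
      rw [Matrix.conjTranspose_apply]
      unfold mat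
      rw [g_conj, sub_eq_add_neg, g_add]
    rw [Finset.sum_congr rfl (fun j _ => h1 j), sum_g, dec_re, dec_im, Matrix.smul_apply,
      Matrix.one_apply]
    split_ifs <;> simp
  · refine ⟨Equiv.swap 0 4, Equiv.swap 0 2, fun i => g (- E (Equiv.swap 0 4 i) 2),
      fun j => g (- E 4 (Equiv.swap 0 2 j) + E 4 2), fun i => g_pow _, fun j => g_pow _, ?_⟩
    intro i j
    unfold mat
    rw [← g_add, ← g_add]
    congr 1
    unfold E'
    ring
  · exact ⟨fun j => by unfold mat; rw [dec_norm.1, g_zero],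
      fun i => by unfold mat; rw [dec_norm.2.1, g_zero]⟩
  · exact ⟨fun j => by unfold mat; rw [dec_norm.2.2.1, g_zero],
      fun i => by unfold mat; rw [dec_norm.2.2.2, g_zero]⟩
  · intro i hi z w hz hw
    obtain ⟨s, rfl⟩ := exists_g hz
    obtain ⟨t, rfl⟩ := exists_g hw
    unfold mat
    rw [ncard_g, ncard_g, dec_row i hi, dec_row i hi]
  · intro j hj z w hz hw
    obtain ⟨s, rfl⟩ := exists_g hz
    obtain ⟨t, rfl⟩ := exists_g hw
    unfold mat
    rw [ncard_g (fun i => E i j), ncard_g (fun i => E i j), dec_col j hj, dec_col j hj]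
  · intro h
    have h1 := h 5 (by decide) (g 0) (g 1) (g_pow _) (g_pow _)
    unfold mat at h1
    rw [ncard_g, ncard_g] at h1
    exact dec_row' h1
  · intro h
    have h1 := h 3 (by decide) (g 0) (g 1) (g_pow _) (g_pow _)
    unfold mat at h1
    rw [ncard_g (fun i => E' i 3), ncard_g (fun i => E' i 3)] at h1
    exact dec_col' h1

end Pool.Agent.Results.MP_812af1_co.BalanceVaries
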